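import Pool.Agent.N588.SN.Tur
import Pool.Agent.Y405.CQ.MER
import Pool.Agent.N818.SN.Stm2

/-! S_NO: the normal order of the number of the prime factors in a class modulo twelve (helper588). -/

set_option autoImplicit false

namespace Pool.Agent.N588.SN

open Finset Filter
open Pool.Agent.N818.SN (S_NO)

/-- the number `y` with `y ^ 8 ≤ X < (y + 1) ^ 8` -/
def rt8 (X : ℕ) : ℕ := (X.sqrt).sqrt.sqrt

theorem rt8_lt (X : ℕ) : X < (rt8 X + 1) ^ 8 := by
  have h1 : X < (X.sqrt + 1) ^ 2 := Nat.lt_succ_sqrt' X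
  have h2 : X.sqrt + 1 ≤ (X.sqrt.sqrt + 1) ^ 2 := Nat.lt_succ_sqrt' _
  have h3 : X.sqrt.sqrt + 1 ≤ (rt8 X + 1) ^ 2 := Nat.lt_succ_sqrt' _
  calc X < (X.sqrt + 1) ^ 2 := h1
    _ ≤ ((X.sqrt.sqrt + 1) ^ 2) ^ 2 := Nat.pow_le_pow_left h2 2
    _ ≤ (((rt8 X + 1) ^ 2) ^ 2) ^ 2 := Nat.pow_le_pow_left (Nat.pow_le_pow_left h3 2) 2
    _ = (rt8 X + 1) ^ 8 := by ring

theorem rt8_le (X : ℕ) : rt8 X ≤ X :=
  (Nat.sqrt_le_self _).trans ((Nat.sqrt_le_self _).trans (Nat.sqrt_le_self _))

/-- few large prime factors -/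
theorem large_card {n y : ℕ} (hn : n ≠ 0) (hy : 1 ≤ y) (h : n < (y + 1) ^ 8) (P : ℕ → Prop)
    [DecidablePred P] : (n.primeFactors.filter fun p => P p ∧ y < p).card ≤ 8 := by
  by_contra hcon
  push Not at hcon
  set T := n.primeFactors.filter fun p => P p ∧ y < p with hT
  have h1 : ∏ p ∈ T, p ∣ n := (prod_dvd_prod_of_subset _ _ _ (filter_subset _ _)).trans
    (Nat.prod_primeFactors_dvd n)
  have h2 : (y + 1) ^ T.card ≤ ∏ p ∈ T, p := by
    rw [← prod_const]
    refine prod_le_prod' fun p hp => ?_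
    rw [hT, mem_filter] at hp
    exact hp.2.2
  have h3 : (y + 1) ^ 8 ≤ (y + 1) ^ T.card := Nat.pow_le_pow_right (by omega) hcon.le
  have h4 := Nat.le_of_dvd (Nat.pos_of_ne_zero hn) h1
  omega

theorem t_NO : S_NO := by
  intro a ε ha hε
  have ha' : (a % 12).Coprime 12 := by
    rw [Nat.coprime_iff_gcd_eq_one, ← Nat.gcd_rec, Nat.gcd_comm]
    exact ha
  obtain ⟨C, hC0, hC⟩ := Pool.Agent.Y405.CQ.mertens_ap 12 (by norm_num) (a % 12)
    (Nat.mod_lt _ (by norm_num)) ha'
  have htot : Nat.totient 12 = 4 := by decide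
  rw [htot] at hC
  have hlog : Tendsto (fun X : ℕ => Real.log (X : ℝ)) atTop atTop :=
    Real.tendsto_log_atTop.comp tendsto_natCast_atTop_atTop
  have hll : Tendsto (fun X : ℕ => Real.log (Real.log (X : ℝ))) atTop atTop :=
    Real.tendsto_log_atTop.comp hlog
  have hev : ∀ᶠ X : ℕ in atTop, (3 : ℕ) ^ 8 ≤ X ∧ 16 ≤ Real.log X ∧
      2 * (C + 1) ≤ Real.log (Real.log X) ∧ (8 + (C + 1)) * 2 / ε ≤ Real.log (Real.log X) ∧
      12 / ε ^ 3 ≤ Real.log (Real.log X) ∧ 0 < Real.log (Real.log X) :=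
    (eventually_ge_atTop _).and ((hlog.eventually_ge_atTop _).and ((hll.eventually_ge_atTop _).and
      ((hll.eventually_ge_atTop _).and ((hll.eventually_ge_atTop _).and
        (hll.eventually_gt_atTop 0)))))
  obtain ⟨X₀, hX₀⟩ := eventually_atTop.1 hev
  refine ⟨X₀, fun X hX => ?_⟩
  obtain ⟨g1, g2, g3, g4, g5, g6⟩ := hX₀ X hX
  set L := Real.log (Real.log (X : ℝ)) with hL
  set y := rt8 X with hy
  have hlt := rt8_lt X
  rw [← hy] at hlt
  have hy3 : 3 ≤ y := by
    by_contra hcon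
    have h1 : y + 1 ≤ 3 := by omega
    have h2 : (y + 1) ^ 8 ≤ 3 ^ 8 := Nat.pow_le_pow_left h1 8
    omega
  have hyX : y ≤ X := rt8_le X
  have hy0 : (0 : ℝ) < y := by
    have : (3 : ℝ) ≤ y := by exact_mod_cast hy3
    linarith
  have hX0 : (0 : ℝ) < X := by
    have : (y : ℝ) ≤ X := by exact_mod_cast hyX
    linarith
  -- the size of `log y`
  have hlogy : Real.log X / 16 ≤ Real.log y := by
    have h1 : (X : ℝ) ≤ ((y : ℝ) + 1) ^ 8 := by exact_mod_cast hlt.le
    have h2 : Real.log X ≤ 8 * Real.log ((y : ℝ) + 1) := by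
      have := Real.log_le_log hX0 h1
      rwa [Real.log_pow] at this
    have h3 : Real.log ((y : ℝ) + 1) ≤ Real.log 2 + Real.log y := by
      rw [← Real.log_mul (by norm_num) hy0.ne']
      apply Real.log_le_log (by linarith)
      have : (3 : ℝ) ≤ y := by exact_mod_cast hy3
      linarith
    have h4 : Real.log 2 ≤ 1 := by
      have := Real.log_two_lt_d9
      linarith
    linarith
  have hlogyX : Real.log y ≤ Real.log X := Real.log_le_log hy0 (by exact_mod_cast hyX)
  have hly : |Real.log (Real.log y) - L| ≤ 4 := by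
    have h0 : 0 < Real.log X / 16 := by linarith
    have h1 : Real.log (Real.log X / 16) ≤ Real.log (Real.log y) := Real.log_le_log h0 hlogy
    have h2 : Real.log (Real.log y) ≤ L := Real.log_le_log (by linarith) hlogyX
    have h3 : Real.log 16 ≤ 4 := by
      have h4 : (16 : ℝ) = 2 ^ 4 := by norm_num
      rw [h4, Real.log_pow]
      have := Real.log_two_lt_d9
      push_cast
      linarith
    rw [Real.log_div (by linarith) (by norm_num)] at h1
    rw [abs_le]
    constructor <;> linarith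
  set F := (Icc 1 y).filter (fun p => p.Prime ∧ p % 12 = a % 12) with hF
  set S := ∑ p ∈ F, (1 : ℝ) / p with hS
  have hSL : |S - L / 4| ≤ C + 1 := by
    have h1 := hC y hy3
    rw [← hF, ← hS] at h1
    rw [abs_le] at h1 hly ⊢
    push_cast at h1
    constructor <;> linarith [h1.1, h1.2, hly.1, hly.2]
  have hFp : ∀ p ∈ F, p.Prime := fun p hp => by
    rw [hF, mem_filter] at hp
    exact hp.2.1
  have hFc : F.card ≤ X := by
    calc F.card ≤ (Icc 1 y).card := card_filter_le _ _
      _ = y := by rw [Nat.card_Icc]; omega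
      _ ≤ X := hyX
  have hw : ∀ n ∈ Icc 1 X, |((n.primeFactors.filter fun p => p % 12 = a % 12).card : ℝ) -
      (wF F n : ℝ)| ≤ 8 := by
    intro n hn
    rw [mem_Icc] at hn
    have h1 : (n.primeFactors.filter fun p => p % 12 = a % 12).card =
        wF F n + (n.primeFactors.filter fun p => p % 12 = a % 12 ∧ y < p).card := by
      have h2 : F.filter (fun p => p ∣ n) =
          n.primeFactors.filter fun p => p % 12 = a % 12 ∧ ¬ y < p := by
        ext p
        rw [hF, mem_filter, mem_filter, mem_filter, mem_Icc, Nat.mem_primeFactors]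
        constructor
        · rintro ⟨⟨⟨k1, k2⟩, k3, k4⟩, k5⟩
          exact ⟨⟨k3, k5, by omega⟩, k4, by omega⟩
        · rintro ⟨⟨k1, k2, k3⟩, k4, k5⟩
          exact ⟨⟨⟨k1.one_lt.le, by omega⟩, k1, k4⟩, k2⟩
      rw [wF, h2, ← filter_filter, ← filter_filter, add_comm]
      exact (card_filter_add_card_filter_not _).symm
    have h3 := large_card (n := n) (y := y) (by omega) (by omega) (by omega)
      (fun p => p % 12 = a % 12)
    rw [h1]
    push_cast
    rw [add_sub_cancel_left, abs_of_nonneg (by positivity)]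
    exact_mod_cast h3
  have hsub : ((Icc 1 X).filter fun n => ε * L ≤
      |((n.primeFactors.filter fun p => p % 12 = a % 12).card : ℝ) - L / 4|) ⊆
      ((Icc 1 X).filter fun n => ε * L / 2 ≤ |(wF F n : ℝ) - S|) := by
    intro n hn
    rw [mem_filter] at hn ⊢
    refine ⟨hn.1, ?_⟩
    have h1 := hw n hn.1
    have h2 := hn.2
    have h3 : (8 + (C + 1)) * 2 ≤ L * ε := by
      rwa [div_le_iff₀ hε] at g4
    set w := ((n.primeFactors.filter fun p => p % 12 = a % 12).card : ℝ)
    have h4 : |w - L / 4| ≤ |w - (wF F n : ℝ)| + |(wF F n : ℝ) - S| + |S - L / 4| := by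
      have h5 : w - L / 4 = (w - (wF F n : ℝ)) + ((wF F n : ℝ) - S) + (S - L / 4) := by ring
      rw [h5]
      exact abs_add_three _ _ _
    linarith
  have hcount := turan_count F hFp X hFc (ε * L / 2) (by positivity)
  rw [← hS] at hcount
  have hSle : S ≤ L := by
    have := (abs_le.1 hSL).2
    have h5 : 0 < L := g6
    -- `S ≤ L / 4 + C + 1`
    linarith [abs_le.1 hSL]
  calc _ ≤ (((Icc 1 X).filter fun n => ε * L / 2 ≤ |(wF F n : ℝ) - S|).card : ℝ) := by
        exact_mod_cast card_le_card hsub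
    _ ≤ 3 * X * S / (ε * L / 2) ^ 2 := hcount
    _ ≤ 3 * X * L / (ε * L / 2) ^ 2 := by gcongr
    _ = (12 / ε ^ 2 / L) * X := by
        have h5 : L ≠ 0 := g6.ne'
        field_simp
        ring
    _ ≤ ε * X := by
        apply mul_le_mul_of_nonneg_right _ hX0.le
        rw [div_le_iff₀ g6]
        have h6 : 12 / ε ^ 2 = ε * (12 / ε ^ 3) := by
          field_simp
        rw [h6]
        exact mul_le_mul_of_nonneg_left g5 hε.le

end Pool.Agent.N588.SN
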