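import Mathlib

/-! Turán's inequality for the number of the prime factors in a finite set (helper588). -/

set_option autoImplicit false

namespace Pool.Agent.N588.SN

open Finset

/-- the number of the elements of `F` which divide `n` -/
def wF (F : Finset ℕ) (n : ℕ) : ℕ := (F.filter fun p => p ∣ n).card

theorem wF_eq (F : Finset ℕ) (n : ℕ) : (wF F n : ℝ) = ∑ p ∈ F, if p ∣ n then (1 : ℝ) else 0 := by
  rw [wF, card_filter]
  push_cast
  rfl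

theorem sum_dvd (X p : ℕ) : ∑ n ∈ Icc 1 X, (if p ∣ n then (1 : ℝ) else 0) = ((X / p : ℕ) : ℝ) := by
  rw [← Nat.Ioc_filter_dvd_card_eq_div, card_filter]
  push_cast
  rfl

theorem div_le (X p : ℕ) : ((X / p : ℕ) : ℝ) ≤ X * (1 / (p : ℝ)) := by
  rw [mul_one_div]
  exact Nat.cast_div_le

theorem div_ge (X p : ℕ) : X * (1 / (p : ℝ)) - 1 ≤ ((X / p : ℕ) : ℝ) := by
  rw [mul_one_div]
  rcases Nat.eq_zero_or_pos p with rfl | hp
  · simp
  · have hp' : (0 : ℝ) < p := by exact_mod_cast hp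
    rw [sub_le_iff_le_add, div_le_iff₀ hp']
    have h1 := Nat.lt_succ_iff.1 (Nat.lt_succ_of_lt (Nat.lt_div_mul_add (a := X) hp))
    have h2 : (X : ℝ) ≤ ((X / p * p + p : ℕ) : ℝ) := by exact_mod_cast h1
    push_cast at h2
    linarith

theorem sum_sq (F : Finset ℕ) (hF : ∀ p ∈ F, p.Prime) (X : ℕ) :
    ∑ n ∈ Icc 1 X, ((wF F n : ℝ)) ^ 2 ≤
      X * (∑ p ∈ F, 1 / (p : ℝ)) ^ 2 + X * ∑ p ∈ F, 1 / (p : ℝ) := by
  have h1 : ∀ n, ((wF F n : ℝ)) ^ 2 = ∑ p ∈ F, ∑ q ∈ F, if p ∣ n ∧ q ∣ n then (1 : ℝ) else 0 := by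
    intro n
    rw [wF_eq, sq, sum_mul_sum]
    refine sum_congr rfl fun p _ => sum_congr rfl fun q _ => ?_
    by_cases h1 : p ∣ n <;> by_cases h2 : q ∣ n <;> simp [h1, h2]
  have h2 : ∀ p ∈ F, ∀ q ∈ F, ∑ n ∈ Icc 1 X, (if p ∣ n ∧ q ∣ n then (1 : ℝ) else 0) ≤
      X * (1 / (p : ℝ) * (1 / (q : ℝ))) + if p = q then X * (1 / (p : ℝ)) else 0 := by
    intro p hp q hq
    by_cases hpq : p = q
    · subst hpq
      simp only [and_self]
      rw [sum_dvd, if_pos trivial]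
      have h3 := div_le X p
      have h4 : (0 : ℝ) ≤ X * (1 / (p : ℝ) * (1 / (p : ℝ))) := by positivity
      linarith
    · rw [if_neg hpq, add_zero]
      have hc : Nat.Coprime p q := (Nat.coprime_primes (hF p hp) (hF q hq)).2 hpq
      have h3 : ∀ n, (p ∣ n ∧ q ∣ n) ↔ p * q ∣ n := fun n =>
        ⟨fun h => hc.mul_dvd_of_dvd_of_dvd h.1 h.2, fun h =>
          ⟨(dvd_mul_right p q).trans h, (dvd_mul_left q p).trans h⟩⟩
      simp only [h3]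
      rw [sum_dvd]
      have h4 := div_le X (p * q)
      push_cast at h4
      rw [one_div_mul_one_div]
      exact h4
  calc ∑ n ∈ Icc 1 X, ((wF F n : ℝ)) ^ 2
      = ∑ n ∈ Icc 1 X, ∑ p ∈ F, ∑ q ∈ F, (if p ∣ n ∧ q ∣ n then (1 : ℝ) else 0) :=
        sum_congr rfl fun n _ => h1 n
    _ = ∑ p ∈ F, ∑ q ∈ F, ∑ n ∈ Icc 1 X, (if p ∣ n ∧ q ∣ n then (1 : ℝ) else 0) := by
        rw [sum_comm]
        exact sum_congr rfl fun p _ => sum_comm
    _ ≤ ∑ p ∈ F, ∑ q ∈ F, (X * (1 / (p : ℝ) * (1 / (q : ℝ))) +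
          if p = q then X * (1 / (p : ℝ)) else 0) :=
        sum_le_sum fun p hp => sum_le_sum fun q hq => h2 p hp q hq
    _ = _ := by
        simp only [sum_add_distrib, sum_ite_eq]
        rw [sq, sum_mul_sum, mul_sum, mul_sum]
        congr 1
        · exact sum_congr rfl fun p _ => by rw [mul_sum]
        · exact sum_congr rfl fun p hp => by rw [if_pos hp]

/-- **Turán's inequality** -/
theorem turan (F : Finset ℕ) (hF : ∀ p ∈ F, p.Prime) (X : ℕ) (hX : F.card ≤ X) :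
    ∑ n ∈ Icc 1 X, ((wF F n : ℝ) - ∑ p ∈ F, 1 / (p : ℝ)) ^ 2 ≤
      3 * X * ∑ p ∈ F, 1 / (p : ℝ) := by
  set S := ∑ p ∈ F, 1 / (p : ℝ) with hS
  have hS0 : 0 ≤ S := sum_nonneg fun p _ => by positivity
  have h1 := sum_sq F hF X
  rw [← hS] at h1
  have h2 : X * S - F.card ≤ ∑ n ∈ Icc 1 X, (wF F n : ℝ) := by
    have h3 : ∑ n ∈ Icc 1 X, (wF F n : ℝ) = ∑ p ∈ F, ((X / p : ℕ) : ℝ) := by
      rw [sum_congr rfl fun n _ => wF_eq F n, sum_comm]
      exact sum_congr rfl fun p _ => sum_dvd X p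
    rw [h3, hS, mul_sum, card_eq_sum_ones]
    push_cast
    rw [← sum_sub_distrib]
    exact sum_le_sum fun p _ => div_ge X p
  have h4 : ∑ n ∈ Icc 1 X, ((wF F n : ℝ) - S) ^ 2 =
      ∑ n ∈ Icc 1 X, ((wF F n : ℝ)) ^ 2 - 2 * S * ∑ n ∈ Icc 1 X, (wF F n : ℝ) + X * S ^ 2 := by
    have h5 : ∀ n ∈ Icc 1 X, ((wF F n : ℝ) - S) ^ 2 =
        ((wF F n : ℝ)) ^ 2 - 2 * S * (wF F n : ℝ) + S ^ 2 := fun n _ => by ring
    rw [sum_congr rfl h5, sum_add_distrib, sum_sub_distrib, ← mul_sum, sum_const, Nat.card_Icc,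
      nsmul_eq_mul, Nat.add_sub_cancel]
  rw [h4]
  have h6 : (F.card : ℝ) ≤ X := by exact_mod_cast hX
  nlinarith [mul_le_mul_of_nonneg_left h2 hS0, mul_le_mul_of_nonneg_left h6 hS0]

/-- Chebyshev's inequality -/
theorem turan_count (F : Finset ℕ) (hF : ∀ p ∈ F, p.Prime) (X : ℕ) (hX : F.card ≤ X) (T : ℝ)
    (hT : 0 < T) :
    (((Icc 1 X).filter fun n => T ≤ |(wF F n : ℝ) - ∑ p ∈ F, 1 / (p : ℝ)|).card : ℝ) ≤
      3 * X * (∑ p ∈ F, 1 / (p : ℝ)) / T ^ 2 := by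
  rw [le_div_iff₀ (by positivity)]
  refine le_trans ?_ (turan F hF X hX)
  rw [card_eq_sum_ones]
  push_cast
  rw [sum_mul, sum_filter]
  refine sum_le_sum fun n _ => ?_
  split_ifs with h
  · rw [one_mul, ← sq_abs ((wF F n : ℝ) - _)]
    exact pow_le_pow_left₀ hT.le h 2
  · positivity

end Pool.Agent.N588.SN
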