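import Pool.Agent.N588.SN.No
import Pool.Agent.N818.SN.Stm

/-! S_UB: few numbers have less than `V` prime factors in a class modulo twelve (helper588). -/

set_option autoImplicit false

namespace Pool.Agent.N588.SN

open Finset Filter
open Pool.Agent.N818.SN (S_UB)

theorem t_UB : S_UB := by
  intro a V ε ha hε
  obtain ⟨X₁, hX₁⟩ := t_NO a (min ε (1 / 8)) ha (lt_min hε (by norm_num))
  have hlog : Tendsto (fun X : ℕ => Real.log (X : ℝ)) atTop atTop :=
    Real.tendsto_log_atTop.comp tendsto_natCast_atTop_atTop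
  have hll : Tendsto (fun X : ℕ => Real.log (Real.log (X : ℝ))) atTop atTop :=
    Real.tendsto_log_atTop.comp hlog
  obtain ⟨X₂, hX₂⟩ := eventually_atTop.1 (hll.eventually_ge_atTop (8 * (V : ℝ) + 1))
  refine ⟨max X₁ X₂, fun X hX => ?_⟩
  have h1 := hX₁ X (le_of_max_le_left hX)
  have h2 := hX₂ X (le_of_max_le_right hX)
  set L := Real.log (Real.log (X : ℝ)) with hL
  have hV : (0 : ℝ) ≤ V := Nat.cast_nonneg V
  refine le_trans (le_trans ?_ h1) ?_
  · have hsub : ((Icc 1 X).filter fun n =>
        (n.primeFactors.filter fun p => p % 12 = a % 12).card < V) ⊆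
        ((Icc 1 X).filter fun n => min ε (1 / 8) * L ≤
          |((n.primeFactors.filter fun p => p % 12 = a % 12).card : ℝ) - L / 4|) := by
      intro n hn
      rw [mem_filter] at hn ⊢
      refine ⟨hn.1, ?_⟩
      have h3 : ((n.primeFactors.filter fun p => p % 12 = a % 12).card : ℝ) ≤ V := by
        exact_mod_cast hn.2.le
      have h4 : min ε (1 / 8) * L ≤ 1 / 8 * L :=
        mul_le_mul_of_nonneg_right (min_le_right _ _) (by linarith)
      rw [abs_sub_comm]
      refine le_trans ?_ (le_abs_self _)
      linarith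
    exact_mod_cast card_le_card hsub
  · exact mul_le_mul_of_nonneg_right (min_le_left _ _) (Nat.cast_nonneg X)

end Pool.Agent.N588.SN
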